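import Pool.Agent.Hhelper51.ZeroSumDoubleStar
import Pool.Agent.Hhelper51.DoubleStarTree

/-!
# Zero-sum double stars in colourings of complete bipartite graphs by a finite abelian group
-/

set_option autoImplicit false

namespace Pool.Agent.Results.MP_9adbbc_co.DoubleStars

open Finset

/-- Let `G` be a finite abelian group of order `s` and let `m, n ≥ 1` satisfy
`s + 1 ≤ ⌈m / 2⌉ + ⌈n / 2⌉`.  For every colouring `c` of the edges of `K_{m,n}` by elements of `G`
there are an edge `x y` and sets `A` and `B` of further vertices of the two classes, with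
`1 + |A| + |B| = s`, such that the colours of the `s` edges `x y`, `u y` (`u ∈ A`) and `x v`
(`v ∈ B`) have sum `0`.  These edges are exactly the edges of a subgraph `T` of `K_{m,n}` that is a
tree with `s` edges and `s + 1` vertices (a double star). -/
theorem result {G : Type*} [AddCommGroup G] [Fintype G] (m n : ℕ) (hm : 1 ≤ m) (hn : 1 ≤ n)
    (hG : Fintype.card G + 1 ≤ (m + 1) / 2 + (n + 1) / 2) (c : Fin m → Fin n → G) :
    ∃ (x : Fin m) (y : Fin n) (A : Finset (Fin m)) (B : Finset (Fin n)),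
      x ∉ A ∧ y ∉ B ∧ 1 + A.card + B.card = Fintype.card G ∧
      c x y + ∑ u ∈ A, c u y + ∑ v ∈ B, c x v = 0 ∧
      ∃ T : (completeBipartiteGraph (Fin m) (Fin n)).Subgraph,
        T.coe.IsTree ∧
        T.edgeSet = {e | e = s(Sum.inl x, Sum.inr y) ∨ (∃ u ∈ A, e = s(Sum.inl u, Sum.inr y)) ∨
          (∃ v ∈ B, e = s(Sum.inl x, Sum.inr v))} ∧
        T.edgeSet.ncard = Fintype.card G ∧ T.verts.ncard = Fintype.card G + 1 := by
  classical
  have hG1 : 1 ≤ Fintype.card G := Fintype.card_pos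
  obtain ⟨a, b, ha1, hb1, hab, hma, hnb⟩ : ∃ a b : ℕ, 1 ≤ a ∧ 1 ≤ b ∧ Fintype.card G + 1 = a + b ∧
      2 * a - 1 ≤ m ∧ 2 * b - 1 ≤ n := by
    by_cases h : (m + 1) / 2 ≤ Fintype.card G
    · exact ⟨(m + 1) / 2, Fintype.card G + 1 - (m + 1) / 2, by omega, by omega, by omega, by omega,
        by omega⟩
    · exact ⟨Fintype.card G, 1, by omega, by omega, by omega, by omega, by omega⟩
  set φ : Fin (2 * a - 1) ↪ Fin m := Fin.castLEEmb hma with hφ
  set ψ : Fin (2 * b - 1) ↪ Fin n := Fin.castLEEmb hnb with hψ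
  obtain ⟨x, y, A, hA, B, hB, hcard, hsum⟩ := Pool.Agent.Hhelper51.ZeroSum.double_star
    (G := G) (X := Fin (2 * a - 1)) (Y := Fin (2 * b - 1)) a b ha1 hb1
    (by rw [Fintype.card_fin]; omega) (by rw [Fintype.card_fin]; omega) hab
    (fun x y => c (φ x) (ψ y))
  have hx : φ x ∉ A.map φ := by
    intro h
    rw [Finset.mem_map'] at h
    exact (Finset.mem_erase.mp (hA h)).1 rfl
  have hy : ψ y ∉ B.map ψ := by
    intro h
    rw [Finset.mem_map'] at h
    exact (Finset.mem_erase.mp (hB h)).1 rfl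
  have hc : 1 + (A.map φ).card + (B.map ψ).card = Fintype.card G := by
    rw [Finset.card_map, Finset.card_map]; omega
  refine ⟨φ x, ψ y, A.map φ, B.map ψ, hx, hy, hc, ?_,
    Pool.Agent.Hhelper51.ZeroSum.dstar (φ x) (ψ y) (A.map φ) (B.map ψ),
    Pool.Agent.Hhelper51.ZeroSum.dstar_isTree _ _ _ _ hx hy, ?_, ?_, ?_⟩
  · rw [Finset.sum_map, Finset.sum_map, add_assoc]
    exact hsum
  · rw [Pool.Agent.Hhelper51.ZeroSum.dstar_edgeSet]
    ext e
    simp only [Finset.coe_insert, Finset.coe_union, Finset.coe_image, Set.mem_insert_iff,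
      Set.mem_union, Set.mem_image, Finset.mem_coe, Set.mem_ofPred_eq, eq_comm]
  · rw [Pool.Agent.Hhelper51.ZeroSum.dstar_edgeSet, Set.ncard_coe_finset,
      Pool.Agent.Hhelper51.ZeroSum.dstar_edge_card _ _ _ _ hx hy]
    omega
  · have hv : (Pool.Agent.Hhelper51.ZeroSum.dstar (φ x) (ψ y) (A.map φ) (B.map ψ)).verts =
        ↑(((insert (φ x) (A.map φ)).image (Sum.inl : Fin m → Fin m ⊕ Fin n)) ∪
          ((insert (ψ y) (B.map ψ)).image (Sum.inr : Fin n → Fin m ⊕ Fin n)) :
          Finset (Fin m ⊕ Fin n)) := by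
      ext p
      simp only [Pool.Agent.Hhelper51.ZeroSum.dstar, Set.mem_ofPred_eq, Finset.coe_union,
        Finset.coe_image, Set.mem_union, Set.mem_image, Finset.mem_coe, Finset.mem_insert]
      constructor
      · rintro (rfl | rfl | ⟨u, hu, rfl⟩ | ⟨v, hv, rfl⟩)
        · exact Or.inl ⟨_, Or.inl rfl, rfl⟩
        · exact Or.inr ⟨_, Or.inl rfl, rfl⟩
        · exact Or.inl ⟨_, Or.inr hu, rfl⟩
        · exact Or.inr ⟨_, Or.inr hv, rfl⟩
      · rintro (⟨u, rfl | hu, rfl⟩ | ⟨v, rfl | hv, rfl⟩)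
        · exact Or.inl rfl
        · exact Or.inr (Or.inr (Or.inl ⟨_, hu, rfl⟩))
        · exact Or.inr (Or.inl rfl)
        · exact Or.inr (Or.inr (Or.inr ⟨_, hv, rfl⟩))
    rw [hv, Set.ncard_coe_finset, Finset.card_union_of_disjoint,
      Finset.card_image_of_injective _ Sum.inl_injective,
      Finset.card_image_of_injective _ Sum.inr_injective, Finset.card_insert_of_notMem hx,
      Finset.card_insert_of_notMem hy]
    · omega
    · rw [Finset.disjoint_left]
      intro p hp hp2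
      rw [Finset.mem_image] at hp hp2
      obtain ⟨u, _, rfl⟩ := hp
      obtain ⟨v, _, h⟩ := hp2
      exact Sum.inr_ne_inl h

end Pool.Agent.Results.MP_9adbbc_co.DoubleStars
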